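import Mathlib
import Pool.Agent.Y215.SK.Defs
import Pool.Agent.R870.CycDefs

set_option autoImplicit false

/-! # Points with small, cyclotomic or torsion multipliers on projective varieties: definitions -/

namespace Pool.Agent.R849.PR

open MvPolynomial NumberField
open Pool.Agent.Helper259.AbsHt

variable {k : Type} [Field k] {ι κ : Type} {n r : ℕ}

/-- the points over `L` with homogeneous coordinates `∑ t_j V_j`, `t ∈ T`, which are zeros of all
`F_i` and not of all `G_l` -/
def ptsOf {L : Type} [Field L] [Algebra k L] (F : ι → MvPolynomial (Fin (n + 1)) k)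
    (G : κ → MvPolynomial (Fin (n + 1)) k) (T : Set (Fin r → L)) (V : Fin r → Fin (n + 1) → L) :
    Set (Projectivization L (Fin (n + 1) → L)) :=
  {P | ∃ t ∈ T, (∀ i, aeval (fun a => ∑ j, t j * V j a) (F i) = 0) ∧
    (∃ l, aeval (fun a => ∑ j, t j * V j a) (G l) ≠ 0) ∧
    ∃ h : (fun a => ∑ j, t j * V j a) ≠ 0, P = Projectivization.mk L _ h}

/-- the `r`-tuples of algebraic numbers `s` with `h(s) < ε`, in a field which contains `Qbar` -/
def smallSet {L : Type} [Field L] (r : ℕ) (φ : Qbar →+* L) (ε : ℝ) : Set (Fin r → L) :=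
  {t | ∃ s : Fin r → Qbar, absLogHeight s < ε ∧ ∀ j, t j = φ (s j)}

/-- the `r`-tuples of cyclotomic integers for which the mean of the squares of the absolute values
of the complex conjugates is at most `B` -/
def cycSet (L : Type) [Field L] (r : ℕ) (B : ℝ) : Set (Fin r → L) :=
  {t | ∀ j, Pool.Agent.R870.CycInt B (t j)}

/-- the `r`-tuples of roots of unity -/
def torsSet (L : Type) [Field L] (r : ℕ) : Set (Fin r → L) :=
  {t | ∀ j, ∃ m : ℕ, 0 < m ∧ t j ^ m = 1}

/-- Over every extension of `k`, every nonconstant map from the projective line to `F = 0`, given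
by polynomials, lies in `G = 0`. -/
def RatIn (F : ι → MvPolynomial (Fin (n + 1)) k) (G : κ → MvPolynomial (Fin (n + 1)) k) : Prop :=
  ∀ (L : Type) [Field L] [Algebra k L] (p : Fin (n + 1) → Polynomial L),
    (∀ i, aeval p (F i) = 0) →
    (∃ t s i j, (p i).eval t * (p j).eval s ≠ (p j).eval t * (p i).eval s) →
    ∀ l, aeval p (G l) = 0

/-- If the `F_i` are of degree at most `d`, then over every extension `L` of `k` with an embedding
of `Qbar`, for all vectors `V_1, …, V_r` over `L`, at most `M d r` points of `F = 0` off `G = 0` have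
coordinates `∑ t_j V_j` with algebraic numbers `t_j` with `h(t) < ε d r`. -/
def SmallUniform (ε : ℕ → ℕ → ℝ) (M : ℕ → ℕ → ℕ) (F : ι → MvPolynomial (Fin (n + 1)) k)
    (G : κ → MvPolynomial (Fin (n + 1)) k) : Prop :=
  ∀ d : ℕ, 1 ≤ d → (∀ i, (F i).totalDegree ≤ d) → ∀ (r : ℕ) (L : Type) [Field L] [Algebra k L]
    (φ : Qbar →+* L) (V : Fin r → Fin (n + 1) → L),
      (ptsOf F G (smallSet r φ (ε d r)) V).encard ≤ M d r

/-- If the `F_i` are of degree at most `d`, then over every extension `L` of `k`, for all vectors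
`V_1, …, V_r` over `L`, at most `M d r B` points of `F = 0` off `G = 0` have coordinates
`∑ t_j V_j` with cyclotomic integers `t_j` as in `cycSet`. -/
def CycUniform (M : ℕ → ℕ → ℝ → ℕ) (F : ι → MvPolynomial (Fin (n + 1)) k)
    (G : κ → MvPolynomial (Fin (n + 1)) k) : Prop :=
  ∀ d : ℕ, 1 ≤ d → (∀ i, (F i).totalDegree ≤ d) → ∀ (r : ℕ) (B : ℝ) (L : Type) [Field L]
    [Algebra k L] (V : Fin r → Fin (n + 1) → L), (ptsOf F G (cycSet L r B) V).encard ≤ M d r B

/-- Over every extension `L` of `k`, for all vectors `V_j` over `L`, finitely many points of `F = 0`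
off `G = 0` have coordinates `∑ ζ_j V_j` with roots of unity `ζ_j`. -/
def TorsFinite (F : ι → MvPolynomial (Fin (n + 1)) k) (G : κ → MvPolynomial (Fin (n + 1)) k) :
    Prop :=
  ∀ (r : ℕ) (L : Type) [Field L] [Algebra k L] (V : Fin r → Fin (n + 1) → L),
    (ptsOf F G (torsSet L r) V).Finite

/-- The same for the field `Qbar` only. -/
def TorsFiniteQbar (F : ι → MvPolynomial (Fin (n + 1)) k)
    (G : κ → MvPolynomial (Fin (n + 1)) k) : Prop :=
  ∀ [Algebra k Qbar] (r : ℕ) (V : Fin r → Fin (n + 1) → Qbar),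
    (ptsOf F G (torsSet Qbar r) V).Finite

/-- the forms over the field -/
noncomputable def overK {K : Type} [Field K] {n : ℕ} {ι : Type}
    (F : ι → MvPolynomial (Fin (n + 1)) (𝓞 K)) (i : ι) : MvPolynomial (Fin (n + 1)) K :=
  map (algebraMap (𝓞 K) K) (F i)

end Pool.Agent.R849.PR
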