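import Mathlib
import Pool.Agent.R849.PR.Defs
import Pool.Agent.R849.AF.Equiv
import Pool.Agent.R870.Conv

set_option autoImplicit false

/-! # Small multipliers on projective varieties without rational curves -/

namespace Pool.Agent.R849.PR

open Finset MvPolynomial
open Pool.Agent.Helper259.AbsHt Pool.Agent.Y215.SP
open Pool.Agent.H533R3.SL (cur cur_eval_one)
open Pool.Agent.R870 (cpt cpt_eq aeval_cpt curvePts curve_inf cur_map cycOff cycOff_subset
  cycOff_ext roots_infinite height_tors)
open Pool.Agent.R849.AF (exists_comb le_of_finite_sub cycInt_tors)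

variable {n N r : ℕ}

section gen

variable {k : Type} [Field k] {ι κ : Type} (F : ι → MvPolynomial (Fin (n + 1)) k)
  (G : κ → MvPolynomial (Fin (n + 1)) k)

theorem ptsOf_mono {L : Type} [Field L] [Algebra k L] {T T' : Set (Fin r → L)} (h : T ⊆ T')
    (V : Fin r → Fin (n + 1) → L) : ptsOf F G T V ⊆ ptsOf F G T' V := by
  rintro P ⟨t, ht, h1⟩
  exact ⟨t, h ht, h1⟩

omit [Field k] in
theorem hom_le {k : Type} [Field k] (p : MvPolynomial (Fin (n + 1)) k) (d : ℕ)
    (h : ∃ e, p.IsHomogeneous e) (hd : p.totalDegree ≤ d) : ∃ e, e ≤ d ∧ p.IsHomogeneous e := by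
  obtain ⟨e, he⟩ := h
  by_cases h0 : p = 0
  · exact ⟨0, Nat.zero_le _, by rw [h0]; exact isHomogeneous_zero _ _ _⟩
  · refine ⟨e, ?_, he⟩
    rw [← he.totalDegree h0]
    exact hd

/-- evaluation along a polynomial curve -/
theorem ev_poly {L : Type} [Field L] [Algebra k L] (p : Fin (n + 1) → Polynomial L)
    (P : MvPolynomial (Fin (n + 1)) k) (t : L) :
    aeval (fun j => (p j).eval t) P = (aeval p P : Polynomial L).eval t := by
  have h1 : (aeval p P : Polynomial L).eval t =
      MvPolynomial.eval₂ ((Polynomial.evalRingHom t).comp (algebraMap k (Polynomial L)))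
        (fun i => Polynomial.evalRingHom t (p i)) P := by
    rw [MvPolynomial.aeval_def]
    exact MvPolynomial.hom_eval₂ P _ (Polynomial.evalRingHom t) _
  rw [h1, MvPolynomial.aeval_def]
  congr 1
  refine RingHom.ext fun a => ?_
  show _ = Polynomial.eval t (algebraMap k (Polynomial L) a)
  rw [Polynomial.algebraMap_apply]
  show _ = Polynomial.eval t (Polynomial.C _)
  rw [Polynomial.eval_C]

/-- the condition on sparse curves -/
theorem cur_cond [CharZero k] (h : RatIn F G) {L : Type} [Field L] [Algebra k L]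
    (g : MvPolynomial (Fin (n + 1)) k) (hg : g ∈ Submodule.span k (Set.range G))
    (c : Fin r → Fin (n + 1) → L) (l : Fin r → ℕ) (hz : ∀ i, aeval (cur c l) (F i) = 0)
    (hc : ∃ i i', cur c l i * Polynomial.C (∑ j, c j i') ≠
      cur c l i' * Polynomial.C (∑ j, c j i)) :
    aeval (fun i => ∑ j, c j i) g = 0 := by
  have hchar : CharZero L := charZero_of_injective_algebraMap (algebraMap k L).injective
  obtain ⟨i, i', hc⟩ := hc
  obtain ⟨t, ht⟩ : ∃ t : L, (cur c l i * Polynomial.C (∑ j, c j i')).eval t ≠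
      (cur c l i' * Polynomial.C (∑ j, c j i)).eval t := by
    by_contra hcon
    push Not at hcon
    exact hc (Polynomial.funext hcon)
  rw [Polynomial.eval_mul, Polynomial.eval_mul, Polynomial.eval_C, Polynomial.eval_C,
    ← cur_eval_one c l i, ← cur_eval_one c l i'] at ht
  have h1 : ∀ l', aeval (cur c l) (G l') = 0 := h L (cur c l) hz ⟨t, 1, i, i', ht⟩
  have h2 : Submodule.span k (Set.range G) ≤
      LinearMap.ker (aeval (fun i => ∑ j, c j i) : MvPolynomial (Fin (n + 1)) k →ₐ[k] L).toLinearMap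
      := by
    rw [Submodule.span_le]
    rintro _ ⟨l', rfl⟩
    show aeval (fun i => ∑ j, c j i) (G l') = 0
    have h3 : (fun i => ∑ j, c j i) = fun i => (cur c l i).eval 1 := by
      funext i
      rw [cur_eval_one]
    rw [h3, ev_poly, h1, Polynomial.eval_zero]
  exact h2 hg

/-- the explicit `ε` -/
noncomputable def epsP (d r : ℕ) : ℝ := epsn ((d + 1) ^ r) / d

/-- the explicit bound -/
noncomputable def MP (d r : ℕ) : ℕ := 2 ^ r * M0 ((d + 1) ^ r) d r

theorem epsP_pos (d r : ℕ) (hd : 1 ≤ d) : 0 < epsP d r :=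
  div_pos (epsn_pos _ (Nat.one_le_pow _ _ (by omega))) (by exact_mod_cast hd)

/-- one polynomial instead of the family `G` -/
theorem bound_of_single [Infinite k] {L : Type} [Field L] [Algebra k L] (T : Set (Fin r → L))
    (V : Fin r → Fin (n + 1) → L) (M : ℕ)
    (h : ∀ g ∈ Submodule.span k (Set.range G),
      (ptsOf F (fun _ : Unit => g) T V).encard ≤ M) : (ptsOf F G T V).encard ≤ M := by
  classical
  refine le_of_finite_sub _ _ fun S hS hSf => ?_
  have h1 : ∀ P ∈ S, ∃ t ∈ T, (∀ i, aeval (fun a => ∑ j, t j * V j a) (F i) = 0) ∧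
      (∃ l, aeval (fun a => ∑ j, t j * V j a) (G l) ≠ 0) ∧
      ∃ h : (fun a => ∑ j, t j * V j a) ≠ 0, P = Projectivization.mk L _ h := fun P hP => hS hP
  choose! t ht1 ht2 ht3 ht4 using h1
  obtain ⟨g, hg, hg2⟩ := exists_comb G ((fun P => fun a => ∑ j, t P j * V j a) '' S)
    (hSf.image _) (by
      rintro _ ⟨P, hP, rfl⟩
      exact ht3 P hP)
  refine (Set.encard_le_encard ?_).trans (h g hg)
  intro P hP
  exact ⟨t P, ht1 P hP, ht2 P hP, ⟨(), hg2 _ ⟨P, hP, rfl⟩⟩, ht4 P hP⟩

theorem small_of_rat [CharZero k] [Finite ι] (hF : ∀ i, ∃ e, (F i).IsHomogeneous e)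
    (h : RatIn F G) : SmallUniform epsP MP F G := by
  classical
  have := Fintype.ofFinite ι
  intro d hd1 hd r L _ _ φ V
  let e := (Fintype.equivFin ι).symm
  refine bound_of_single F G _ V _ fun g hg => ?_
  refine (Set.encard_le_encard ?_).trans (card_smallOff (fun i => F (e i)) d hd1
    (fun i => hom_le _ d (hF _) (hd _)) g (fun c l hz hc => cur_cond F G h g hg c l (fun i => ?_)
      hc) φ V)
  · rintro P ⟨t, ⟨s, hs1, hs2⟩, h1, ⟨_, h2⟩, h3, h4⟩
    obtain rfl : t = fun j => φ (s j) := funext hs2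
    exact ⟨s, hs1, fun i => h1 _, h2, h3, h4⟩
  · have h3 := hz (e.symm i)
    simp only [Equiv.apply_symm_apply] at h3
    exact h3

theorem exists_degP [Finite ι] : ∃ d : ℕ, 1 ≤ d ∧ ∀ i, (F i).totalDegree ≤ d := by
  have := Fintype.ofFinite ι
  refine ⟨∑ i, (F i).totalDegree + 1, by omega, fun i => ?_⟩
  have := Finset.single_le_sum (f := fun i => (F i).totalDegree) (fun _ _ => Nat.zero_le _)
    (Finset.mem_univ i)
  omega

theorem tors_of_cyc [Finite ι] (M : ℕ → ℕ → ℝ → ℕ) (h : CycUniform M F G) : TorsFinite F G := by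
  obtain ⟨d, hd1, hd⟩ := exists_degP F
  intro r L _ _ V
  refine (Set.finite_of_encard_le_coe (h d hd1 hd r 1 L V)).subset (ptsOf_mono F G ?_ V)
  intro t ht j
  exact cycInt_tors _ (ht j)

/-- a nonconstant curve has infinitely many points for each infinite set of parameters -/
theorem pts_inf {L : Type} [Field L] [Algebra k L] (l0 : κ) {M : ℕ}
    (v : Fin M → Fin (n + 1) → L) (hF : ∀ i, aeval (cur v (fun j => (j : ℕ))) (F i) = 0)
    (hc : ∃ i j, cur v (fun j => (j : ℕ)) i * Polynomial.C ((cur v (fun j => (j : ℕ)) j).eval 1) ≠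
        cur v (fun j => (j : ℕ)) j * Polynomial.C ((cur v (fun j => (j : ℕ)) i).eval 1))
    (hG : aeval (fun i => (cur v (fun j => (j : ℕ)) i).eval 1) (G l0) ≠ 0)
    (S : Set L) (hS : S.Infinite) :
    (ptsOf F G {t | ∃ z ∈ S, ∀ j : Fin M, t j = z ^ (j : ℕ)} v).Infinite := by
  refine (curve_inf (G l0) v hc hG S hS).mono ?_
  rintro P ⟨z, hz, h1, h2, rfl⟩
  refine ⟨fun j => z ^ (j : ℕ), ⟨z, hz, fun _ => rfl⟩, fun i => ?_, ⟨l0, h1⟩, h2, rfl⟩
  show aeval (cpt v z) (F i) = 0
  rw [aeval_cpt, hF, Polynomial.eval_zero]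

/-- passing to a larger field -/
theorem map_curve {L L' : Type} [Field L] [Algebra k L] [Field L'] [Algebra k L'] (φ : L →ₐ[k] L')
    (l0 : κ) {M : ℕ} (v : Fin M → Fin (n + 1) → L)
    (hF : ∀ i, aeval (cur v (fun j => (j : ℕ))) (F i) = 0)
    (hc : ∃ i j, cur v (fun j => (j : ℕ)) i * Polynomial.C ((cur v (fun j => (j : ℕ)) j).eval 1) ≠
        cur v (fun j => (j : ℕ)) j * Polynomial.C ((cur v (fun j => (j : ℕ)) i).eval 1))
    (hG : aeval (fun i => (cur v (fun j => (j : ℕ)) i).eval 1) (G l0) ≠ 0)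
    (S : Set L') (hS : S.Infinite) :
    (ptsOf F G {t | ∃ z ∈ S, ∀ j : Fin M, t j = z ^ (j : ℕ)} (fun j a => φ (v j a))).Infinite := by
  have hmap : ∀ P : MvPolynomial (Fin (n + 1)) k,
      (aeval (cur (fun j a => φ (v j a)) (fun j : Fin M => (j : ℕ))) P : Polynomial L') =
        (aeval (cur v (fun j => (j : ℕ))) P : Polynomial L).map (φ : L →+* L') := by
    intro P
    have h0 : cur (fun j a => φ (v j a)) (fun j : Fin M => (j : ℕ)) =
        fun i => (cur v (fun j => (j : ℕ)) i).map (φ : L →+* L') := by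
      funext i
      exact cur_map (φ : L →+* L') v _ i
    rw [h0]
    show _ = Polynomial.mapRingHom (φ : L →+* L') _
    rw [MvPolynomial.aeval_def, MvPolynomial.aeval_def,
      MvPolynomial.hom_eval₂ P _ (Polynomial.mapRingHom (φ : L →+* L')) _]
    congr 1
    refine RingHom.ext fun a => ?_
    rw [RingHom.comp_apply, Polynomial.algebraMap_apply, Polynomial.algebraMap_apply]
    show Polynomial.C _ = Polynomial.map _ (Polynomial.C _)
    rw [Polynomial.map_C]
    congr 1
    exact (φ.commutes a).symm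
  have e1 : ∀ i, cur (fun j a => φ (v j a)) (fun j : Fin M => (j : ℕ)) i =
      (cur v (fun j => (j : ℕ)) i).map (φ : L →+* L') := cur_map (φ : L →+* L') v _
  refine pts_inf F G l0 _ (fun i => ?_) ?_ ?_ S hS
  · rw [hmap, hF, Polynomial.map_zero]
  · obtain ⟨j1, j2, hc⟩ := hc
    refine ⟨j1, j2, fun h => hc ?_⟩
    apply Polynomial.map_injective (φ : L →+* L') (φ : L →+* L').injective
    rw [e1, e1] at h
    rw [Polynomial.map_mul, Polynomial.map_mul, Polynomial.map_C, Polynomial.map_C]
    have e2 : ∀ i, Polynomial.eval 1 (Polynomial.map (φ : L →+* L')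
        (cur v (fun j : Fin M => (j : ℕ)) i)) =
        (φ : L →+* L') (Polynomial.eval 1 (cur v (fun j => (j : ℕ)) i)) := by
      intro i
      rw [← Polynomial.eval_map_apply, map_one]
    rw [e2, e2] at h
    exact h
  · rw [cpt_eq, aeval_cpt, hmap]
    intro h
    apply hG
    rw [cpt_eq, aeval_cpt]
    apply (φ : L →+* L').injective
    rw [map_zero, ← Polynomial.eval_map_apply, map_one]
    exact h

/-- a curve which shows that `RatIn` fails, normalised at the parameter `1` -/
theorem curve_of_not [CharZero k] (h : ¬ RatIn F G) :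
    ∃ (L : Type) (_ : Field L) (_ : Algebra k L) (p : Fin (n + 1) → Polynomial L) (l0 : κ),
      (∀ i, aeval p (F i) = 0) ∧
      (∃ i j, p i * Polynomial.C ((p j).eval 1) ≠ p j * Polynomial.C ((p i).eval 1)) ∧
      aeval (fun i => (p i).eval 1) (G l0) ≠ 0 := by
  classical
  unfold RatIn at h
  push Not at h
  obtain ⟨L, _, _, p, hp, ⟨t, s, i, j, hne⟩, l0, hG⟩ := h
  have hchar : CharZero L := charZero_of_injective_algebraMap (algebraMap k L).injective
  -- a good parameter
  have hR : p i * Polynomial.C ((p j).eval s) - p j * Polynomial.C ((p i).eval s) ≠ 0 := by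
    intro h0
    apply hne
    have h1 := congrArg (Polynomial.eval t) h0
    rw [Polynomial.eval_sub, Polynomial.eval_mul, Polynomial.eval_mul, Polynomial.eval_C,
      Polynomial.eval_C, Polynomial.eval_zero] at h1
    exact sub_eq_zero.1 h1
  obtain ⟨t0, ht0⟩ : ∃ t0 : L, ((p i * Polynomial.C ((p j).eval s) -
      p j * Polynomial.C ((p i).eval s)) * aeval p (G l0)).eval t0 ≠ 0 := by
    by_contra hcon
    push Not at hcon
    apply mul_ne_zero hR hG
    exact Polynomial.funext fun x => by rw [hcon x, Polynomial.eval_zero]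
  rw [Polynomial.eval_mul] at ht0
  have h1 := left_ne_zero_of_mul ht0
  have h2 := right_ne_zero_of_mul ht0
  rw [Polynomial.eval_sub, Polynomial.eval_mul, Polynomial.eval_mul, Polynomial.eval_C,
    Polynomial.eval_C] at h1
  let τ : Polynomial L := Polynomial.X + Polynomial.C (t0 - 1)
  have hτ : ∀ x : L, τ.eval x = x + (t0 - 1) := fun x => by simp [τ]
  have he1 : ∀ a, ((p a).comp τ).eval 1 = (p a).eval t0 := by
    intro a
    rw [Polynomial.eval_comp, hτ]
    congr 1
    ring
  refine ⟨L, inferInstance, inferInstance, fun a => (p a).comp τ, l0, fun i' => ?_,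
    ⟨i, j, fun h0 => ?_⟩, ?_⟩
  · apply Polynomial.funext
    intro x
    rw [← ev_poly, Polynomial.eval_zero]
    have h3 : (fun j => ((p j).comp τ).eval x) = fun j => (p j).eval (τ.eval x) := by
      funext j
      rw [Polynomial.eval_comp]
    rw [h3, ev_poly, hp, Polynomial.eval_zero]
  · rw [he1, he1] at h0
    have h3 := congrArg (Polynomial.eval (s - (t0 - 1))) h0
    rw [Polynomial.eval_mul, Polynomial.eval_mul, Polynomial.eval_C, Polynomial.eval_C,
      Polynomial.eval_comp, Polynomial.eval_comp, hτ, sub_add_cancel] at h3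
    apply h1
    linear_combination -h3
  · have h3 : (fun a => ((p a).comp τ).eval 1) = fun a => (p a).eval t0 := funext he1
    show aeval (fun a => ((p a).comp τ).eval 1) (G l0) ≠ 0
    rw [h3, ev_poly]
    exact h2

/-- a bound for the degrees -/
theorem exists_coeff_bound {L : Type} [Field L] (p : Fin (n + 1) → Polynomial L) :
    ∃ M : ℕ, (∀ i m, M ≤ m → (p i).coeff m = 0) ∧
      cur (fun (j : Fin M) a => (p a).coeff j) (fun j => (j : ℕ)) = p := by
  obtain ⟨M, hM⟩ : ∃ M : ℕ, ∀ i, (p i).natDegree < M := by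
    refine ⟨∑ i, (p i).natDegree + 1, fun i => ?_⟩
    have : (p i).natDegree ≤ ∑ i, (p i).natDegree :=
      Finset.single_le_sum (f := fun i => (p i).natDegree) (fun _ _ => Nat.zero_le _)
        (Finset.mem_univ i)
    omega
  refine ⟨M, fun i m hm => Polynomial.coeff_eq_zero_of_natDegree_lt ((hM i).trans_le hm), ?_⟩
  funext a
  show ∑ j : Fin M, Polynomial.C ((p a).coeff j) * Polynomial.X ^ (j : ℕ) = p a
  rw [Fin.sum_univ_eq_sum_range (fun j => Polynomial.C ((p a).coeff j) * Polynomial.X ^ j) M]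
  exact (Polynomial.as_sum_range_C_mul_X_pow' (p a) (hM a)).symm

end gen

end Pool.Agent.R849.PR
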