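import Mathlib
import Pool.Agent.R849.PR.Gen
import Pool.Agent.R406.PU.Hts
import Pool.Agent.R870.Cyc

set_option autoImplicit false

/-! # Small multipliers and rational curves: the equivalences -/

namespace Pool.Agent.R849.PR

open Finset MvPolynomial NumberField
open Pool.Agent.Helper259.AbsHt Pool.Agent.Y215.SP
open Pool.Agent.H533R3.SL (cur cur_eval_one)
open Pool.Agent.R870 (cpt cpt_eq aeval_cpt curvePts curve_inf cur_map cycOff cycOff_subset
  cycOff_ext roots_infinite height_tors exists_emb)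
open Pool.Agent.R849.AF (emb_alg)
open Pool.Agent.W235.PR (HasCurve ExpCurvesIn RatCurvesIn EntireCurvesIn RationalFinite tfae
  not_rat_of_hasCurve)
open Pool.Agent.R406.PU (fK aeval_fK hasCurve_of_cur)

variable {n N r : ℕ}

theorem cyc_of_rat : ∃ M : ℕ → ℕ → ℝ → ℕ, ∀ (k : Type) [Field k] [CharZero k] (ι κ : Type)
    [Finite ι] (n : ℕ) (F : ι → MvPolynomial (Fin (n + 1)) k)
    (G : κ → MvPolynomial (Fin (n + 1)) k), (∀ i, ∃ e, (F i).IsHomogeneous e) → RatIn F G →
      CycUniform M F G := by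
  classical
  choose D hD using cycOff_subset
  refine ⟨fun d r B => MP d (r * D B), fun k _ _ ι κ _ n F G hF h d hd1 hd r B L _ _ V => ?_⟩
  have := Fintype.ofFinite ι
  let e := (Fintype.equivFin ι).symm
  have : CharZero L := charZero_of_injective_algebraMap (algebraMap k L).injective
  let φ : L →ₐ[k] AlgebraicClosure L := IsScalarTower.toAlgHom k L (AlgebraicClosure L)
  have : CharZero (AlgebraicClosure L) :=
    charZero_of_injective_algebraMap (algebraMap L (AlgebraicClosure L)).injective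
  obtain ⟨τ⟩ : Nonempty (Qbar →+* AlgebraicClosure L) := exists_emb _
  refine bound_of_single F G _ V _ fun g hg => ?_
  have h1 : ptsOf F (fun _ : Unit => g) (cycSet L r B) V ⊆ cycOff (fun i => F (e i)) g B V := by
    rintro P ⟨t, ht, h1, ⟨_, h2⟩, h3⟩
    exact ⟨t, ht, fun i => h1 _, h2, h3⟩
  refine (Set.encard_le_encard h1).trans ?_
  refine (cycOff_ext (AlgebraicClosure L) φ (fun i => F (e i)) g B V).trans ?_
  refine (Set.encard_le_encard (hD B τ n _ r (fun i => F (e i)) g (fun j a => φ (V j a))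
    (epsP d (r * D B)) (epsP_pos d _ hd1))).trans ?_
  refine card_smallOff (fun i => F (e i)) d hd1 (fun i => hom_le _ d (hF _) (hd _)) g
    (fun c l hz hc => cur_cond F G h g hg c l (fun i => ?_) hc) τ _
  have h3 := hz (e.symm i)
  simp only [Equiv.apply_symm_apply] at h3
  exact h3

section gen

variable {k : Type} [Field k] {ι κ : Type} (F : ι → MvPolynomial (Fin (n + 1)) k)
  (G : κ → MvPolynomial (Fin (n + 1)) k)

theorem pow_tors {L : Type} [Field L] (M : ℕ) :
    {t : Fin M → L | ∃ z ∈ {z : L | ∃ m : ℕ, 0 < m ∧ z ^ m = 1}, ∀ j : Fin M, t j = z ^ (j : ℕ)} ⊆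
      torsSet L M := by
  rintro t ⟨z, ⟨m, hm, hz⟩, ht⟩ j
  refine ⟨m, hm, ?_⟩
  rw [ht j, ← pow_mul, mul_comm, pow_mul, hz, one_pow]

theorem rat_of_tors [CharZero k] (h : TorsFinite F G) : RatIn F G := by
  classical
  by_contra hcon
  obtain ⟨L, _, _, p, l0, hp, hc, hG⟩ := curve_of_not F G hcon
  obtain ⟨M, -, hM⟩ := exists_coeff_bound p
  rw [← hM] at hp hc hG
  have : CharZero L := charZero_of_injective_algebraMap (algebraMap k L).injective
  let φ : L →ₐ[k] AlgebraicClosure L := IsScalarTower.toAlgHom k L (AlgebraicClosure L)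
  have : CharZero (AlgebraicClosure L) :=
    charZero_of_injective_algebraMap (algebraMap L (AlgebraicClosure L)).injective
  obtain ⟨τ⟩ : Nonempty (Qbar →+* AlgebraicClosure L) := exists_emb _
  exact (map_curve F G φ l0 _ hp hc hG _ (roots_infinite τ)) ((h M (AlgebraicClosure L) _).subset
    (ptsOf_mono F G (pow_tors M) _))

theorem rat_of_small [CharZero k] [Finite ι] (ε : ℕ → ℕ → ℝ) (hε : ∀ d r, 1 ≤ d → 0 < ε d r)
    (M : ℕ → ℕ → ℕ) (h : SmallUniform ε M F G) : RatIn F G := by
  classical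
  by_contra hcon
  obtain ⟨L, _, _, p, l0, hp, hc, hG⟩ := curve_of_not F G hcon
  obtain ⟨D, -, hM⟩ := exists_coeff_bound p
  rw [← hM] at hp hc hG
  have : CharZero L := charZero_of_injective_algebraMap (algebraMap k L).injective
  let φ : L →ₐ[k] AlgebraicClosure L := IsScalarTower.toAlgHom k L (AlgebraicClosure L)
  have : CharZero (AlgebraicClosure L) :=
    charZero_of_injective_algebraMap (algebraMap L (AlgebraicClosure L)).injective
  obtain ⟨τ⟩ : Nonempty (Qbar →+* AlgebraicClosure L) := exists_emb _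
  obtain ⟨d, hd1, hd⟩ := exists_degP F
  have h1 := map_curve F G φ l0 _ hp hc hG _
    ((roots_infinite (RingHom.id Qbar)).image τ.injective.injOn)
  refine h1 ((Set.finite_of_encard_le_coe (h d hd1 hd D _ τ _)).subset (ptsOf_mono F G ?_ _))
  rintro t ⟨_, ⟨z, ⟨m, hm, hz⟩, rfl⟩, ht⟩
  refine ⟨fun j => z ^ (j : ℕ), ?_, fun j => ?_⟩
  · rw [height_tors]
    · exact hε d D hd1
    · intro j
      right
      refine ⟨m, hm, ?_⟩
      rw [← pow_mul, mul_comm, pow_mul, hz, one_pow]
  · rw [ht j, map_pow]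

end gen

/-- **the equivalence over fields of characteristic zero** -/
theorem tfae_gen (M : ℕ → ℕ → ℝ → ℕ) (hM : ∀ (k : Type) [Field k] [CharZero k] (ι κ : Type)
    [Finite ι] (n : ℕ) (F : ι → MvPolynomial (Fin (n + 1)) k)
    (G : κ → MvPolynomial (Fin (n + 1)) k), (∀ i, ∃ e, (F i).IsHomogeneous e) → RatIn F G →
      CycUniform M F G)
    {k : Type} [Field k] [CharZero k] {ι κ : Type} [Finite ι]
    (F : ι → MvPolynomial (Fin (n + 1)) k) (G : κ → MvPolynomial (Fin (n + 1)) k)
    (hF : ∀ i, ∃ e, (F i).IsHomogeneous e) :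
    List.TFAE [RatIn F G, SmallUniform epsP MP F G, CycUniform M F G, TorsFinite F G] := by
  tfae_have 1 → 2 := small_of_rat F G hF
  tfae_have 1 → 3 := hM k ι κ n F G hF
  tfae_have 2 → 1 := rat_of_small F G epsP (fun d r hd => epsP_pos d r hd) MP
  tfae_have 3 → 4 := tors_of_cyc F G M
  tfae_have 4 → 1 := rat_of_tors F G
  tfae_finish

section num

variable {K : Type} [Field K] [NumberField K] {ι κ : Type} (σ : K →+* ℂ)
  (F : ι → MvPolynomial (Fin (n + 1)) (𝓞 K)) (G : κ → MvPolynomial (Fin (n + 1)) (𝓞 K))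

omit [NumberField K] in
theorem overK_hom (hF : ∀ i, ∃ e, (F i).IsHomogeneous e) (i : ι) :
    ∃ e, (overK F i).IsHomogeneous e := by
  obtain ⟨e, he⟩ := hF i
  exact ⟨e, he.map _⟩

omit [NumberField K] in
theorem aeval_overK {L : Type} [CommRing L] [Algebra K L] (x : Fin (n + 1) → L) (i : ι) :
    aeval x (overK F i) = eval₂ ((algebraMap K L).comp (algebraMap (𝓞 K) K)) x (F i) := by
  unfold overK
  rw [aeval_def, eval₂_map]

/-- failure over some field gives a curve over a number field -/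
theorem hasCurve_of_not (h : ¬ RatIn (overK F) (overK G)) : HasCurve F G := by
  obtain ⟨L, _, _, p, l0, hp, hc, hG⟩ := curve_of_not _ _ h
  obtain ⟨M, -, hM⟩ := exists_coeff_bound p
  rw [← hM] at hp hc hG
  refine hasCurve_of_cur F G l0 L (fun (j : Fin M) a => (p a).coeff j) (fun j => (j : ℕ)) hp ?_ ?_
  · obtain ⟨i, j, hc⟩ := hc
    refine ⟨i, j, ?_⟩
    rw [cur_eval_one, cur_eval_one] at hc
    exact hc
  · have h3 : (fun i => ∑ j : Fin M, (p i).coeff j) = fun i =>
        (cur (fun (j : Fin M) a => (p a).coeff j) (fun j => (j : ℕ)) i).eval 1 := by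
      funext i
      rw [cur_eval_one]
    show aeval (fun i => ∑ j : Fin M, (p i).coeff j) (overK G l0) ≠ 0
    rw [h3]
    exact hG

theorem rat_of_ratIn (h : RatIn (overK F) (overK G)) : RatCurvesIn σ F G := by
  let _ : Algebra K ℂ := σ.toAlgebra
  intro p hp hc t l
  have h1 := h ℂ p (fun i => ?_) hc l
  · have h2 := ev_poly p (overK G l) t
    rw [h1, Polynomial.eval_zero, aeval_overK] at h2
    exact h2
  · apply Polynomial.funext
    intro t
    rw [← ev_poly, Polynomial.eval_zero, aeval_overK]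
    exact hp t i

/-- failure over some field gives infinitely many points over `Qbar` -/
theorem rat_of_qbar (h : TorsFiniteQbar (overK F) (overK G)) : RatIn (overK F) (overK G) := by
  classical
  by_contra hcon
  obtain ⟨L, _, _, p, l0, hp, hc, hG⟩ := curve_of_not _ _ hcon
  obtain ⟨N, hN, -⟩ := exists_coeff_bound p
  obtain ⟨M, iF, iN, iA, v, hv1, hv2, hv3⟩ :=
    Pool.Agent.TH409.SH.specialise (n := n) K L p (Set.range fun i => overK F i)
      (by
        rintro _ ⟨i, rfl⟩
        exact hp i) N hN hc (overK G l0) hG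
  obtain ⟨i1, ⟨φ⟩⟩ := emb_alg (k := K) (L := M)
  exact (map_curve (overK F) (overK G) φ l0 v (fun i => hv1 _ ⟨i, rfl⟩) hv2 hv3 _
    (roots_infinite (RingHom.id Qbar))) ((h N _).subset (ptsOf_mono _ _ (pow_tors N) _))

/-- **the equivalence over number fields** -/
theorem tfae_num (M : ℕ → ℕ → ℝ → ℕ) (hM : ∀ (k : Type) [Field k] [CharZero k] (ι κ : Type)
    [Finite ι] (n : ℕ) (F : ι → MvPolynomial (Fin (n + 1)) k)
    (G : κ → MvPolynomial (Fin (n + 1)) k), (∀ i, ∃ e, (F i).IsHomogeneous e) → RatIn F G →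
      CycUniform M F G) [Finite ι] (hF : ∀ i, ∃ e, (F i).IsHomogeneous e)
    (hG : ∀ l, ∃ e, (G l).IsHomogeneous e) :
    List.TFAE [ExpCurvesIn σ F G, RatCurvesIn σ F G, RatIn (overK F) (overK G),
      SmallUniform epsP MP (overK F) (overK G), CycUniform M (overK F) (overK G),
      TorsFinite (overK F) (overK G), TorsFiniteQbar (overK F) (overK G)] := by
  have h0 := tfae σ F G hF hG
  have h1 := tfae_gen M hM (overK F) (overK G) (overK_hom F hF)
  tfae_have 1 ↔ 2 := h0.out 0 1
  tfae_have 2 → 3 := fun h => by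
    by_contra h2
    exact not_rat_of_hasCurve σ F G hF (hasCurve_of_not F G h2) h
  tfae_have 3 → 2 := rat_of_ratIn σ F G
  tfae_have 3 ↔ 4 := h1.out 0 1
  tfae_have 3 ↔ 5 := h1.out 0 2
  tfae_have 3 ↔ 6 := h1.out 0 3
  tfae_have 6 → 7 := fun h _ r V => h r Qbar V
  tfae_have 7 → 3 := rat_of_qbar F G
  tfae_finish

end num

end Pool.Agent.R849.PR
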